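import Pool.Agent.H63.SEP.Stmts3

/-!
Project SEP, module CNV: converting a countable system into a subsystem of the universal system.
-/

set_option linter.unusedVariables false
set_option synthInstance.maxSize 100000

namespace SW.SEP

open SW

section

variable {M : Type} [SetStr M] [ZF M]

theorem cnv_act_id {g B p : M} (hg : ∀ e, E e B → app g e = e) (h0 : ¬ E emp B)
    (hp : E p (PS B)) : act g p = p := by
  have hs := (mem_PS.1 hp).1.2
  have key : ∀ a, E a p → opair (hx g (p1 a)) (p2 a) = a := by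
    intro a ha
    rcases hs a ha with ⟨s, τ, b, _, _, _, rfl⟩ | ⟨e, v, he, _, rfl⟩ | ⟨e, z, j, he, _, _, rfl⟩
    · unfold gR
      rw [p1_opair, p2_opair]
      have : hx g (emp : M) = emp := the_eq (Or.inl ⟨rfl, rfl⟩) (by
        rintro z (⟨_, h⟩ | ⟨h, _⟩)
        · exact h
        · exact absurd rfl h)
      rw [this]
    · unfold lV
      rw [p1_opair, p2_opair]
      have hne : ¬ e = emp := fun h => h0 (h ▸ he)
      have : hx g e = e := the_eq (Or.inr ⟨hne, (hg e he).symm⟩) (by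
        rintro z (⟨h, _⟩ | ⟨_, h⟩)
        · exact absurd h hne
        · rw [h, hg e he])
      rw [this]
    · unfold lF
      rw [p1_opair, p2_opair]
      have hne : ¬ e = emp := fun h => h0 (h ▸ he)
      have : hx g e = e := the_eq (Or.inr ⟨hne, (hg e he).symm⟩) (by
        rintro z (⟨h, _⟩ | ⟨_, h⟩)
        · exact absurd h hne
        · rw [h, hg e he])
      rw [this]
  refine ext fun z => ?_
  unfold act
  rw [mem_img]
  constructor
  · rintro ⟨a, ha, rfl⟩
    rw [key a ha]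
    exact ha
  · intro hz
    exact ⟨z, hz, (key z hz).symm⟩

theorem cnv_actn_id {g B X τ : M} (hg : ∀ e, E e B → app g e = e) (h0 : ¬ E emp B)
    (hp : Nm B X τ) : actn g τ = τ := by
  have key : ∀ t, E t τ → opair (act g (p1 t)) (p2 t) = t := by
    intro t ht
    obtain ⟨q, a, hq, _, rfl⟩ := hp.2 t ht
    rw [p1_opair, p2_opair, cnv_act_id hg h0 hq]
  refine ext fun z => ?_
  unfold actn
  rw [mem_img]
  constructor
  · rintro ⟨a, ha, rfl⟩
    rw [key a ha]
    exact ha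
  · intro hz
    exact ⟨z, hz, (key z hz).symm⟩

theorem cnv_ig_id {g B : M} (hg : ∀ e, E e B → app g e = e) : ig g B = B := by
  refine ext fun z => ?_
  unfold ig
  rw [mem_img]
  constructor
  · rintro ⟨a, ha, rfl⟩
    rw [hg a ha]
    exact ha
  · intro hz
    exact ⟨z, hz, (hg z hz).symm⟩

theorem cnv_iso_id (hA : AtFacts M) {B : M} (hB : Sy B) {g : M} (hg : ∀ e, E e B → app g e = e) :
    Iso g B B := by
  have h0 := hA.sy0 hB
  refine ⟨fun e he => ?_, fun d hd => ⟨d, hd, hg d hd⟩, fun e e' he he' h => ?_,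
    fun e he h => ?_, fun e he => ?_, fun B' r q x i t he => ?_⟩
  · rw [hg e he]
    exact he
  · rwa [hg e he, hg e' he'] at h
  · rwa [hg e he]
  · rw [hg e he]
    have hs := (hB e he).1
    exact (cnv_ig_id fun d hd => hg d (hs d hd)).symm
  · obtain ⟨_, _, hs, hSy, hr, _, hq, hx, _, _, _⟩ := hA.sycd hB he
    have hg' : ∀ e, E e B' → app g e = e := fun d hd => hg d (hs d hd)
    have h0' : ¬ E emp B' := fun h => h0 (hs _ h)
    refine ⟨t, ?_⟩
    rw [hg _ he, cnv_ig_id hg', hg' r hr, cnv_act_id hg' h0' hq, cnv_actn_id hg' h0' hx]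

/-- a member of a system which is a code is a valid code -/
theorem cnv_lvc (hA : AtFacts M) {J B r q x i t : M} (hJ : Sy J) (h : E (cod B r q x i t) J) :
    LVC (cod B r q x i t) := by
  have hC : IsC (cod B r q x i t) := ⟨B, r, q, x, i, t, rfl⟩
  rcases (hJ _ h).2 with h1 | h1 | h1
  · obtain ⟨B', t', he, _⟩ := h1
    exact absurd hC (hA.nc (Or.inl ⟨B', t', he⟩))
  · obtain ⟨B', T0, T1, t', he, _⟩ := h1
    exact absurd hC (hA.nc (Or.inr ⟨B', T0, T1, t', he⟩))
  · exact h1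

end

theorem sep_cnv (hATM : ATMStmt) (hRNM : RNMStmt) (hISF : ISFStmt) (hOKI : OKIStmt)
    (hINV : INVStmt) (hUGD : UGDStmt) : CNVStmt := by
  intro M _ _ hF H hH r K C hr hR hK hKc hKH hrK hgood hrC hCc hCH
  have hA := hATM M
  obtain ⟨hU, hUmax⟩ := hUGD M H
  set B := bs r with hBdef
  obtain ⟨_, _, hBc, _, hBU, hBs⟩ := hA.sye hU.1 hr
  -- the identity
  set g0 : M := gr B (fun x => x) with hg0
  have hg0' : ∀ e, E e B → app g0 e = e := fun e he => app_gr inferInstance he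
  have hiso := cnv_iso_id hA hBs hg0'
  obtain ⟨g', J2, h1, h2, h3, h4, h5, h6, h7, h8⟩ := hRNM M H g0 B B K C hH hBs hBs hK hiso hrK
    hKc hKH hrC hCc hCH
  have hid : ∀ e, E e B → app g' e = e := fun e he => by rw [h6 e he, hg0' e he]
  refine ⟨g', J2, h1, h2, h3, ?_, hid, h7⟩
  refine hUmax J2 ⟨h2, h4, ?_⟩
  intro B' r' q' x' i' t' hd hr'
  -- the code is the image of a code
  obtain ⟨c, hc, hcd⟩ := h1.2.1 _ hd
  have hdC : IsC (cod B' r' q' x' i' t') := ⟨B', r', q', x', i', t', rfl⟩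
  have hcN : ¬ Nc c := by
    intro h
    have := h1.2.2.2.1 c hc h
    rw [hcd] at this
    exact hA.nc this hdC
  have hcC : IsC c := ((hA.sye hK hc).2.1).resolve_left hcN
  obtain ⟨B0, r0, q0, x0, i0, t0, rfl⟩ := hcC
  obtain ⟨t1, ht1⟩ := h1.2.2.2.2.2 B0 r0 q0 x0 i0 t0 hc
  rw [hcd, hA.cd] at ht1
  obtain ⟨e1, e2, e3, e4, e5, e6⟩ := ht1
  obtain ⟨_, _, hB0K, hB0s, hr0B0, hr0N, _, _, _, _, _⟩ := hA.sycd hK hc
  obtain ⟨_, _, hB'J, hB's, _, _, _, _, _, _, _⟩ := hA.sycd h2 hd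
  have hr0K : E r0 K := hB0K _ hr0B0
  have hr0B : E r0 B := by
    by_contra hn
    have := h8 r0 hr0K hn hr0N
    rw [← e2] at this
    exact hA.lr this hr'
  have e2' : r' = r0 := by rw [e2, hid r0 hr0B]
  have hr0R : IsR r0 := e2' ▸ hr'
  have hcO := hgood B0 r0 q0 x0 i0 t0 hc hr0B hr0R
  have hISO := hISF M g' K J2 hK h2 h1
  obtain ⟨hi1, hi2, hi3⟩ := hISO.sub hB0s hB0K
  have hbr : ∀ e, E e (bs r0) → app g' e = e := fun e he => hid e ((hBs r0 hr0B).1 e he)
  have hd' : cod B' r' q' x' i' t' = cod (ig g' B0) r0 (act g' q0) (actn g' x0) i0 t' := by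
    rw [e1, e2', e3, e4, e5]
  have hdL := cnv_lvc hA h2 hd
  have hdH := h4 _ hd
  rw [hd'] at hdL hdH
  rw [hd', e2']
  exact hOKI M H r0 hH hr0R (hINV M hF H hH r0 hr0R) g' B0 (ig g' B0) q0 x0 i0 t0 t' hB0s hi2
    (fun e he => hKH e (hB0K e he)) (fun e he => h4 e (hi3 e he)) hi1 (hid r0 hr0B) hbr
    (cnv_lvc hA hK hc) hdL hdH hcO

end SW.SEP
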