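import Pool.Agent.H63.SEP.Stmts3

/-!
Project SEP, module NIJ: the power set of `w × om` is not mapped injectively to `w` in the
extension.
-/

set_option linter.unusedVariables false
set_option synthInstance.maxSize 100000

namespace SW.SEP

open SW

section
variable {N : Type} [SetStr N]

/-- `v 1` is injective on `v 0` -/
def nijQ1 (N : Type) [SetStr N] (v : Fin 2 → N) : Prop := ∀ a a' b, E a (v 0) → E a' (v 0) →
  PairIn a b (v 1) → PairIn a' b (v 1) → a = a'

def nijQ2 (N : Type) [SetStr N] (v : Fin 3 → N) : Prop := PairIn (v 0) (v 1) (v 2)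

instance nijQ1_u : UDf nijQ1 := by unfold nijQ1; infer_instance

instance nijQ2_u : UDf nijQ2 := by unfold nijQ2; infer_instance

end

theorem nij_df {M : Type} [SetStr M] [ZF M] [Countable M] (F : FPoset M) :
    Df (fun v : Fin 4 → M => FS F nijQ2 (v 0) ![v 1, v 2, v 3]) := by
  refine ((semF F).df nijQ2).congr fun w => ?_
  have : (![w 1, w 2, w 3] : Fin 3 → M) = (fun i => w i.succ) := by
    funext i
    fin_cases i <;> rfl
  rw [this]

/-- Cantor's diagonal argument -/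
theorem nij_cantor {M : Type} [SetStr M] [ZFC M] (hCHS : CHSStmt) (w : M) (β : M → M)
    (hβ : Fn1 β) (h1 : ∀ a, E a (pow (prod w om)) → E (β a) w)
    (h2 : ∀ b, E b w → Cb (sep (pow (prod w om)) (fun a => β a = b))) : False := by
  have hβ1 : ∀ {n : ℕ} {t : (Fin n → M) → M} [DfT t], DfT (fun v => β (t v)) :=
    fun {n t ht} => DfT.comp1 hβ ht
  set X : M := pow (prod w om) with hX
  obtain ⟨H, hH⟩ := hCHS M w (fun b f =>
    (∀ y, E y (sep X (fun a => β a = b)) → ∃ n, E n om ∧ E (opair y n) f) ∧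
    ∀ y y' n, E y (sep X (fun a => β a = b)) → E y' (sep X (fun a => β a = b)) → E n om →
      E (opair y n) f → E (opair y' n) f → y = y') inferInstance h2
  set D : M := sep (prod w om) (fun c => ∃ a n, E a X ∧ c = opair (β a) n ∧
    E (opair a n) (app H (β a)) ∧ ¬ E c a) with hD
  have hDm : ∀ c, E c D ↔ E c (prod w om) ∧ ∃ a n, E a X ∧ c = opair (β a) n ∧
    E (opair a n) (app H (β a)) ∧ ¬ E c a := fun c => mem_sep
  have hDX : E D X := mem_pow.2 fun c hc => ((hDm c).1 hc).1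
  have hb := h1 D hDX
  obtain ⟨h3, h4⟩ := hH (β D) hb
  have hDs : E D (sep X (fun a => β a = β D)) := mem_sep.2 ⟨hDX, rfl⟩
  obtain ⟨n, hn, hDn⟩ := h3 D hDs
  by_cases hc : E (opair (β D) n) D
  · obtain ⟨_, a, n', ha, e1, e2, e3⟩ := (hDm _).1 hc
    rw [opair_inj] at e1
    obtain ⟨e4, e5⟩ := e1
    subst e5
    rw [← e4] at e2
    have e6 : a = D := h4 a D n (mem_sep.2 ⟨ha, e4.symm⟩) hDs hn e2 hDn
    rw [e6] at e3
    exact e3 hc
  · exact hc ((hDm _).2 ⟨mem_prod.2 ⟨hb, hn⟩, D, n, hDX, rfl, hDn, hc⟩)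

theorem sep_nij (hCCS : CCSStmt) (hCHS : CHSStmt) (hCBA : CBAStmt) : NIJStmt := by
  intro M _ _ _ I w G hI hG _ _ hcon
  obtain ⟨f, hf1, hf2⟩ := hcon
  obtain ⟨f', rfl⟩ : ∃ f', mk (PF I) G f' = f := by
    obtain ⟨f', hf'⟩ := Quot.exists_rep f
    exact ⟨f', hf'⟩
  set F := PF I with hF
  set X : M := pow (prod w om) with hX
  have hS := semF F
  have hem := embF hG
  -- the injectivity is forced
  have hQ1 : nijQ1 (Ext F G) (fun i => mk F G ((![chk F X, f'] : Fin 2 → M) i)) := by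
    intro a a' b ha ha' hab hab'
    exact hf2 a a' b ha ha' (pairIn_iff.1 hab) (pairIn_iff.1 hab')
  obtain ⟨p0, hp0, hp0F⟩ := (hS.truth nijQ1 G hG _).1 hQ1
  -- the relation
  have hK := nij_df F
  have hKi : ∀ {n : ℕ} {t s u x : (Fin n → M) → M} [DfT t] [DfT s] [DfT u] [DfT x],
      Df (fun v => FS F nijQ2 (t v) ![s v, u v, x v]) := fun {n t s u x ht hs hu hx} =>
    hK.comp4 (R := fun a b c d => FS F nijQ2 a ![b, c, d]) ht hs hu hx
  obtain ⟨g, hg⟩ := hCHS M X (fun a y => ∃ p b, y = opair p b ∧ E p (PS I) ∧ Sub p0 p ∧ E b w ∧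
    FS F nijQ2 p ![chk F a, chk F b, f']) inferInstance (by
      intro a ha
      obtain ⟨b', hb', hab⟩ := hf1 (emb F G a) ((hem.mem _ _).2 ha)
      obtain ⟨b, hb, rfl⟩ := hem.trans _ _ hb'
      have h2 : nijQ2 (Ext F G) (fun i => mk F G ((![chk F a, chk F b, f'] : Fin 3 → M) i)) :=
        pairIn_iff.2 hab
      obtain ⟨p1, hp1, hp1F⟩ := (hS.truth nijQ2 G hG _).1 h2
      obtain ⟨p, hp, hpp0, hpp1⟩ := hG.dir p0 p1 hp0 hp1
      refine ⟨opair p b, p, b, rfl, hG.sub p hp, hpp0, hb, ?_⟩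
      intro G' hG' hpG'
      exact hp1F G' hG' (hG'.up p p1 hpG' (hG.sub _ hp1) hpp1))
  -- the values
  have hgv : ∀ a, E a X → E (SEP.p1 (app g a)) (PS I) ∧ Sub p0 (SEP.p1 (app g a)) ∧
      E (p2 (app g a)) w ∧
      FS F nijQ2 (SEP.p1 (app g a)) ![chk F a, chk F (p2 (app g a)), f'] := by
    intro a ha
    obtain ⟨p, b, h1, h2, h3, h4, h5⟩ := hg a ha
    rw [h1, p1_opair, p2_opair]
    exact ⟨h2, h3, h4, h5⟩
  have hinc : ∀ a a', E a X → E a' X → p2 (app g a) = p2 (app g a') →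
      Cpt (PS I) (SEP.p1 (app g a)) (SEP.p1 (app g a')) → a = a' := by
    intro a a' ha ha' hb hcpt
    obtain ⟨r, hr, hr1, hr2⟩ := hcpt
    obtain ⟨hp1, hp2, hp3, hp4⟩ := hgv a ha
    obtain ⟨hp1', hp2', hp3', hp4'⟩ := hgv a' ha'
    obtain ⟨G', hG', hrG'⟩ := hS.ex r hr
    have hp0P : E p0 F.P := hG.sub p0 hp0
    have g1 : G' (SEP.p1 (app g a)) := hG'.up r _ hrG' hp1 hr1
    have g2 : G' (SEP.p1 (app g a')) := hG'.up r _ hrG' hp1' hr2
    have g0 : G' p0 := hG'.up _ _ g1 hp0P hp2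
    have q0 := hp0F G' hG' g0
    have q1 := hp4 G' hG' g1
    have q2 := hp4' G' hG' g2
    rw [← hb] at q2
    have hem' := embF hG'
    have := q0 (emb F G' a) (emb F G' a') (emb F G' (p2 (app g a))) ((hem'.mem _ _).2 ha)
      ((hem'.mem _ _).2 ha') q1 q2
    exact (hem'.inj _ _).1 this
  refine nij_cantor hCHS w (fun a => p2 (app g a)) inferInstance (fun a ha => (hgv a ha).2.2.1) ?_
  intro b hb
  set A : M := sep X (fun a => p2 (app g a) = b) with hA
  have hAm : ∀ a, E a A ↔ E a X ∧ p2 (app g a) = b := fun a => mem_sep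
  have hAC : Cb (img A (fun a => SEP.p1 (app g a))) := by
    refine hCCS M I hI _ ⟨?_, ?_⟩
    · intro z hz
      rw [mem_img] at hz
      obtain ⟨a, ha, rfl⟩ := hz
      exact (hgv a ((hAm a).1 ha).1).1
    · intro p q hp hq hpq hcpt
      rw [mem_img] at hp hq
      obtain ⟨a, ha, rfl⟩ := hp
      obtain ⟨a', ha', rfl⟩ := hq
      have ha1 := (hAm a).1 ha
      have ha1' := (hAm a').1 ha'
      have := hinc a a' ha1.1 ha1'.1 (ha1.2.trans ha1'.2.symm) hcpt
      rw [this] at hpq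
      exact hpq rfl
  refine (hCBA M).inj (fun a => SEP.p1 (app g a)) inferInstance hAC
    (fun z hz => mem_img.2 ⟨z, hz, rfl⟩) ?_
  intro a a' ha ha' h
  have ha1 := (hAm a).1 ha
  have ha1' := (hAm a').1 ha'
  refine hinc a a' ha1.1 ha1'.1 (ha1.2.trans ha1'.2.symm) ?_
  rw [← h]
  exact ⟨_, (hgv a ha1.1).1, Sub.refl _, Sub.refl _⟩

end SW.SEP
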